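import Pool.Agent.X205.BE.Bern

/-! MP_c23f48_an, Q1 (affirmative): if the norm of τ(D) on the Bernstein space of ONE centred ball
equals the maximum of |τ| on the ball, then τ is a ridge polynomial. -/

set_option autoImplicit false

open Pool.Agent.X205.BE

namespace Pool.Agent.Results.MP_c23f48_an.SingleBall

/-- Let τ be a complex polynomial on ℝⁿ and let r > 0. If the norm of τ(D) on the Bernstein space
B(K) of the closed ball K of radius r about 0 equals the maximum of |τ| on K, then τ(ξ) = ρ(⟨a,ξ⟩)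
for some a in ℝⁿ and some polynomial ρ in one variable. -/
theorem result (n : ℕ) (τ : MvPolynomial (Fin n) ℂ) (r : ℝ) (hr : 0 < r)
    (h : IsNorm τ (Metric.closedBall (0 : EuclideanSpace ℝ (Fin n)) r)
      (sSup ((fun ξ => ‖ev τ ξ‖) '' Metric.closedBall (0 : EuclideanSpace ℝ (Fin n)) r))) :
    IsRidge τ := by
  have hc : IsCompact (Metric.closedBall (0 : EuclideanSpace ℝ (Fin n)) r) :=
    isCompact_closedBall _ _
  have hne : (Metric.closedBall (0 : EuclideanSpace ℝ (Fin n)) r).Nonempty :=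
    ⟨0, by simp [hr.le]⟩
  obtain ⟨x, hx, hmax⟩ := hc.exists_isMaxOn hne
    ((ev_continuous τ).norm.continuousOn)
  have hmax' : ∀ ξ ∈ Metric.closedBall (0 : EuclideanSpace ℝ (Fin n)) r,
      ‖ev τ ξ‖ ≤ ‖ev τ x‖ := fun ξ hξ => hmax hξ
  have hs : sSup ((fun ξ => ‖ev τ ξ‖) '' Metric.closedBall (0 : EuclideanSpace ℝ (Fin n)) r) =
      ‖ev τ x‖ := by
    refine IsGreatest.csSup_eq ⟨⟨x, hx, rfl⟩, ?_⟩
    rintro _ ⟨ξ, hξ, rfl⟩
    exact hmax' ξ hξ
  rw [hs] at h
  exact ridge_of_trig τ r hr x hx hmax' (trig_of_norm τ _ _ h)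

end Pool.Agent.Results.MP_c23f48_an.SingleBall
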